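import Mathlib

/-!
# Tools for the area of neighbourhoods of plane curves
-/

set_option autoImplicit false

namespace Pool.Agent.Q120.SPI

open Set MeasureTheory Filter Topology

/-- The points at (Euclidean) distance at most `ε` from `S`. -/
def nhd (S : Set (ℝ × ℝ)) (ε : ℝ) : Set (ℝ × ℝ) :=
  {p | ∀ δ > ε, ∃ q ∈ S, Real.sqrt ((p.1 - q.1) ^ 2 + (p.2 - q.2) ^ 2) < δ}

/-- Real roots of odd order. -/
noncomputable def rt (q : ℕ) (z : ℝ) : ℝ :=
  if 0 ≤ z then z ^ (1 / (q : ℝ)) else -((-z) ^ (1 / (q : ℝ)))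

lemma rt_pow {q : ℕ} (hq : Odd q) (z : ℝ) : rt q z ^ q = z := by
  have hq0 : q ≠ 0 := by rintro rfl; simp at hq
  unfold rt
  split_ifs with h
  · rw [one_div]
    exact Real.rpow_inv_natCast_pow h hq0
  · rw [hq.neg_pow, one_div, Real.rpow_inv_natCast_pow (by linarith) hq0, neg_neg]

lemma rt_unique {q : ℕ} (hq : Odd q) {x z : ℝ} (h : x ^ q = z) : x = rt q z :=
  hq.strictMono_pow.injective (h.trans (rt_pow hq z).symm)

lemma rt_mono {q : ℕ} (hq : Odd q) : Monotone (rt q) := by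
  intro z z' h
  by_contra hcon
  push Not at hcon
  have := hq.strictMono_pow hcon
  simp only [rt_pow hq] at this
  linarith

lemma rt_neg {q : ℕ} (hq : Odd q) (z : ℝ) : rt q (-z) = -rt q z := by
  symm
  apply rt_unique hq
  rw [hq.neg_pow, rt_pow hq]

lemma rt_one {q : ℕ} (hq : Odd q) : rt q 1 = 1 := (rt_unique hq (one_pow q)).symm

lemma rt_abs_le {q : ℕ} (hq : Odd q) {z : ℝ} (h : |z| ≤ 1) : |rt q z| ≤ 1 := by
  rw [abs_le] at h ⊢
  constructor
  · have h1 := rt_mono hq h.1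
    rw [rt_neg hq, rt_one hq] at h1
    exact h1
  · have h1 := rt_mono hq h.2
    rw [rt_one hq] at h1
    exact h1

lemma rt_pos {q : ℕ} (hq : Odd q) {z : ℝ} (h : 0 < z) : 0 < rt q z := by
  by_contra hcon
  push Not at hcon
  have := hq.strictMono_pow.monotone hcon
  simp only [rt_pow hq] at this
  rw [zero_pow (by rintro rfl; simp at hq)] at this
  linarith

lemma quarter (j : ℕ) : ∃ s₁ s₂ : ℝ, (s₁ = 1 ∨ s₁ = -1) ∧ (s₂ = 1 ∨ s₂ = -1) ∧
    MonotoneOn (fun ψ => s₁ * Real.cos ψ) (Icc (j * (Real.pi / 2)) ((j + 1) * (Real.pi / 2))) ∧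
    MonotoneOn (fun ψ => s₂ * Real.sin ψ)
      (Icc (j * (Real.pi / 2)) ((j + 1) * (Real.pi / 2))) := by
  induction j with
  | zero =>
    refine ⟨-1, 1, Or.inr rfl, Or.inl rfl, ?_, ?_⟩
    · intro a ha b hb hab
      simp only [Nat.cast_zero, zero_mul, zero_add, one_mul] at ha hb
      have := Real.strictAntiOn_cos.antitoneOn (a := a) (b := b) ⟨ha.1, by linarith [ha.2,
        Real.pi_pos]⟩ ⟨hb.1, by linarith [hb.2, Real.pi_pos]⟩ hab
      simp only
      linarith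
    · intro a ha b hb hab
      simp only [Nat.cast_zero, zero_mul, zero_add, one_mul] at ha hb
      have := Real.strictMonoOn_sin.monotoneOn (a := a) (b := b) ⟨by linarith [ha.1,
        Real.pi_pos], ha.2⟩ ⟨by linarith [hb.1, Real.pi_pos], hb.2⟩ hab
      simp only
      linarith
  | succ j ih =>
    obtain ⟨s₁, s₂, h1, h2, h3, h4⟩ := ih
    refine ⟨-s₂, s₁, ?_, h1, ?_, ?_⟩
    · rcases h2 with h | h
      · right; rw [h]
      · left; rw [h, neg_neg]
    · intro a ha b hb hab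
      push_cast at ha hb
      have := h4 (a := a - Real.pi / 2) (b := b - Real.pi / 2)
        ⟨by linarith [ha.1], by linarith [ha.2]⟩ ⟨by linarith [hb.1], by linarith [hb.2]⟩
        (by linarith)
      simp only [Real.sin_sub_pi_div_two] at this ⊢
      linarith
    · intro a ha b hb hab
      push_cast at ha hb
      have := h3 (a := a - Real.pi / 2) (b := b - Real.pi / 2)
        ⟨by linarith [ha.1], by linarith [ha.2]⟩ ⟨by linarith [hb.1], by linarith [hb.2]⟩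
        (by linarith)
      simp only [Real.cos_sub_pi_div_two] at this ⊢
      linarith

lemma volume_rect (a b c d : ℝ) : volume (Icc a b ×ˢ Icc c d : Set (ℝ × ℝ)) =
    ENNReal.ofReal (b - a) * ENNReal.ofReal (d - c) := by
  rw [Measure.volume_eq_prod, Measure.prod_prod, Real.volume_Icc, Real.volume_Icc]

/-- A curve which is dominated by a function with values in `[0, L]`. -/
lemma cover {I : Set ℝ} {x y f : ℝ → ℝ} {L δ : ℝ} (hδ : 0 < δ) (hL : 0 ≤ L)
    (hf : ∀ g ∈ I, 0 ≤ f g ∧ f g ≤ L)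
    (hx : ∀ g ∈ I, ∀ g' ∈ I, |x g - x g'| ≤ |f g - f g'|)
    (hy : ∀ g ∈ I, ∀ g' ∈ I, |y g - y g'| ≤ |f g - f g'|) :
    volume {p : ℝ × ℝ | ∃ g ∈ I, |p.1 - x g| ≤ δ ∧ |p.2 - y g| ≤ δ} ≤
      ENNReal.ofReal ((L / δ + 1) * (4 * δ) ^ 2) := by
  classical
  set A : ℕ → Set (ℝ × ℝ) := fun j => {p : ℝ × ℝ | ∃ g ∈ I, ⌊f g / δ⌋₊ = j ∧
    |p.1 - x g| ≤ δ ∧ |p.2 - y g| ≤ δ} with hA
  have h1 : {p : ℝ × ℝ | ∃ g ∈ I, |p.1 - x g| ≤ δ ∧ |p.2 - y g| ≤ δ} ⊆
      ⋃ j ∈ Finset.range (⌊L / δ⌋₊ + 1), A j := by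
    rintro p ⟨g, hg, hp⟩
    rw [mem_iUnion₂]
    refine ⟨⌊f g / δ⌋₊, ?_, g, hg, rfl, hp⟩
    rw [Finset.mem_range]
    have : ⌊f g / δ⌋₊ ≤ ⌊L / δ⌋₊ :=
      Nat.floor_le_floor (div_le_div_of_nonneg_right (hf g hg).2 hδ.le)
    omega
  have h2 : ∀ j, volume (A j) ≤ ENNReal.ofReal ((4 * δ) ^ 2) := by
    intro j
    by_cases hj : ∃ g ∈ I, ⌊f g / δ⌋₊ = j
    · obtain ⟨g, hg, hgj⟩ := hj
      have h3 : A j ⊆ Icc (x g - 2 * δ) (x g + 2 * δ) ×ˢ Icc (y g - 2 * δ) (y g + 2 * δ) := by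
        rintro p ⟨g', hg', hgj', hp1, hp2⟩
        have h4 : |f g - f g'| ≤ δ := by
          have e1 := Nat.floor_le (div_nonneg (hf g hg).1 hδ.le)
          have e2 := Nat.floor_le (div_nonneg (hf g' hg').1 hδ.le)
          have e3 := Nat.lt_floor_add_one (f g / δ)
          have e4 := Nat.lt_floor_add_one (f g' / δ)
          rw [hgj] at e1 e3
          rw [hgj'] at e2 e4
          rw [le_div_iff₀ hδ] at e1 e2
          rw [div_lt_iff₀ hδ] at e3 e4
          rw [abs_le]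
          constructor <;> nlinarith
        have h5 := (hx g hg g' hg').trans h4
        have h6 := (hy g hg g' hg').trans h4
        rw [abs_le] at h5 h6 hp1 hp2
        refine ⟨⟨?_, ?_⟩, ⟨?_, ?_⟩⟩ <;> linarith [h5.1, h5.2, h6.1, h6.2, hp1.1, hp1.2, hp2.1,
          hp2.2]
      refine (measure_mono h3).trans ?_
      rw [volume_rect, ← ENNReal.ofReal_mul (by linarith)]
      apply ENNReal.ofReal_le_ofReal
      nlinarith
    · have h3 : A j = ∅ := by
        rw [eq_empty_iff_forall_notMem]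
        rintro p ⟨g, hg, hgj, _⟩
        exact hj ⟨g, hg, hgj⟩
      rw [h3, measure_empty]
      exact bot_le
  refine (measure_mono h1).trans ((measure_biUnion_finset_le _ _).trans ?_)
  refine (Finset.sum_le_sum (fun j _ => h2 j)).trans ?_
  rw [Finset.sum_const, Finset.card_range, nsmul_eq_mul]
  have h3 : ((⌊L / δ⌋₊ + 1 : ℕ) : ENNReal) = ENNReal.ofReal ((⌊L / δ⌋₊ + 1 : ℕ) : ℝ) := by
    rw [ENNReal.ofReal_natCast]
  rw [h3, ← ENNReal.ofReal_mul (by positivity)]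
  apply ENNReal.ofReal_le_ofReal
  apply mul_le_mul_of_nonneg_right _ (by positivity)
  have := Nat.floor_le (div_nonneg hL hδ.le)
  push_cast
  linarith

lemma sum_rpow_le {a : ℝ} (ha0 : 0 < a) (ha1 : a < 1) (J : ℕ) :
    ∑ i ∈ Finset.range J, ((i : ℝ) + 1) ^ (-a) ≤ (J : ℝ) ^ (1 - a) / (1 - a) := by
  induction J with
  | zero =>
    simp only [Finset.range_zero, Finset.sum_empty, Nat.cast_zero]
    apply div_nonneg (Real.rpow_nonneg le_rfl _) (by linarith)
  | succ J ih =>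
    rw [Finset.sum_range_succ]
    have h1 : (0 : ℝ) < (J : ℝ) + 1 := by positivity
    have h2 : (J : ℝ) ^ (1 - a) ≤ ((J : ℝ) + 1) ^ (1 - a) - (1 - a) * ((J : ℝ) + 1) ^ (-a) := by
      have h3 := rpow_one_add_le_one_add_mul_self (s := -(1 / ((J : ℝ) + 1)))
        (p := 1 - a) (by
          rw [neg_le_neg_iff, div_le_one h1]
          have : (0 : ℝ) ≤ J := Nat.cast_nonneg J
          linarith) (by linarith) (by linarith)
      have h4 : (J : ℝ) = ((J : ℝ) + 1) * (1 + -(1 / ((J : ℝ) + 1))) := by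
        field_simp
        ring
      have h5 : 0 ≤ 1 + -(1 / ((J : ℝ) + 1)) := by
        have : 1 / ((J : ℝ) + 1) ≤ 1 := by
          rw [div_le_one h1]
          have : (0 : ℝ) ≤ J := Nat.cast_nonneg J
          linarith
        linarith
      have h6 : (J : ℝ) ^ (1 - a) = ((J : ℝ) + 1) ^ (1 - a) *
          (1 + -(1 / ((J : ℝ) + 1))) ^ (1 - a) := by
        rw [← Real.mul_rpow h1.le h5, ← h4]
      have h7 : ((J : ℝ) + 1) ^ (-a) = ((J : ℝ) + 1) ^ (1 - a) / ((J : ℝ) + 1) := by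
        have : -a = (1 - a) - 1 := by ring
        rw [this, Real.rpow_sub_one h1.ne']
      rw [h6, h7]
      have h8 : 0 ≤ ((J : ℝ) + 1) ^ (1 - a) := Real.rpow_nonneg h1.le _
      calc ((J : ℝ) + 1) ^ (1 - a) * (1 + -(1 / ((J : ℝ) + 1))) ^ (1 - a)
          ≤ ((J : ℝ) + 1) ^ (1 - a) * (1 + (1 - a) * -(1 / ((J : ℝ) + 1))) :=
            mul_le_mul_of_nonneg_left h3 h8
        _ = _ := by ring
    have h9 : 0 < 1 - a := by linarith
    rw [le_div_iff₀ h9] at ih ⊢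
    push_cast
    nlinarith

end Pool.Agent.Q120.SPI
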