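import Pool.Agent.Q120.SPI.Ode

/-!
# The box dimension of a spiral trajectory
-/

set_option autoImplicit false

namespace Pool.Agent.Q120.SPI

open Set MeasureTheory Filter Topology

lemma nhd_mono {S S' : Set (ℝ × ℝ)} (h : S ⊆ S') (ε : ℝ) : nhd S ε ⊆ nhd S' ε := by
  intro p hp δ hδ
  obtain ⟨q, hq, hd⟩ := hp δ hδ
  exact ⟨q, h hq, hd⟩

/-- From the area bounds to the exponent. -/
lemma tendsto_exponent {D : ℝ} {V : ℝ → ℝ} {c C : ℝ} (hc : 0 < c)
    (h : ∀ᶠ ε in 𝓝[>] (0 : ℝ), c * ε ^ D ≤ V ε ∧ V ε ≤ C * ε ^ D) :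
    Tendsto (fun ε => Real.log (V ε) / Real.log ε) (𝓝[>] 0) (𝓝 D) := by
  have hlog : Tendsto Real.log (𝓝[>] (0 : ℝ)) atBot := Real.tendsto_log_nhdsGT_zero
  have h1 : ∀ K : ℝ, Tendsto (fun ε => Real.log K / Real.log ε + D) (𝓝[>] (0 : ℝ)) (𝓝 D) := by
    intro K
    have h2 : Tendsto (fun ε => Real.log K / Real.log ε) (𝓝[>] (0 : ℝ)) (𝓝 0) :=
      hlog.const_div_atBot _
    have := h2.add_const D
    rwa [zero_add] at this
  have hsmall : ∀ᶠ ε in 𝓝[>] (0 : ℝ), 0 < ε ∧ ε < 1 := by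
    have : Ioo (0 : ℝ) 1 ∈ 𝓝[>] (0 : ℝ) := Ioo_mem_nhdsGT one_pos
    filter_upwards [this] with ε hε using hε
  refine tendsto_of_tendsto_of_tendsto_of_le_of_le' (h1 C) (h1 c) ?_ ?_
  · filter_upwards [h, hsmall] with ε hε hs
    have hl : Real.log ε < 0 := Real.log_neg hs.1 hs.2
    have hεD : 0 < ε ^ D := Real.rpow_pos_of_pos hs.1 _
    have hV : 0 < V ε := lt_of_lt_of_le (by positivity) hε.1
    have hC : 0 < C := by
      by_contra hcon
      push Not at hcon
      have := mul_nonpos_of_nonpos_of_nonneg hcon hεD.le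
      linarith [hε.2]
    have e : Real.log C / Real.log ε + D = Real.log (C * ε ^ D) / Real.log ε := by
      rw [Real.log_mul hC.ne' hεD.ne', Real.log_rpow hs.1, add_div,
        mul_div_assoc, div_self hl.ne, mul_one]
    rw [e]
    exact div_le_div_of_nonpos_of_le hl.le (Real.log_le_log hV hε.2)
  · filter_upwards [h, hsmall] with ε hε hs
    have hl : Real.log ε < 0 := Real.log_neg hs.1 hs.2
    have hεD : 0 < ε ^ D := Real.rpow_pos_of_pos hs.1 _
    have e : Real.log c / Real.log ε + D = Real.log (c * ε ^ D) / Real.log ε := by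
      rw [Real.log_mul hc.ne' hεD.ne', Real.log_rpow hs.1, add_div,
        mul_div_assoc, div_self hl.ne, mul_one]
    rw [e]
    exact div_le_div_of_nonpos_of_le hl.le (Real.log_le_log (by positivity) hε.1)

/-- The exponent for a set between two tails of an explicit spiral. -/
theorem spiral_exponent {m n k : ℕ} (hm : Odd m) (hn : Odd n) (hmn : n ≤ m) (hk : 1 ≤ k)
    {α g₀ g₁ : ℝ} (hα0 : 0 ≤ α) (hα1 : α ≤ 2 * Real.pi) (hg₀ : 0 < g₀) (hg₁ : 0 < g₁)
    {S : Set (ℝ × ℝ)} (hS : ∀ p ∈ S, ∃ g, g₀ ≤ g ∧ OnCurve m n k α g p)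
    (hS' : ∀ g, g₁ ≤ g → ∀ p, OnCurve m n k α g p → p ∈ S) :
    Tendsto (fun ε => Real.log (volume (nhd S ε)).toReal / Real.log ε) (𝓝[>] 0)
      (𝓝 ((1 + (n : ℝ) / m) / (1 + 2 * k * n))) := by
  obtain ⟨C, hC, hup⟩ := upper hm hn hmn hk hα0 hα1 hg₀ hS
  obtain ⟨c, hc, η₀, hη₀, hlow⟩ := lower hm hn hk hg₁ hS'
  refine tendsto_exponent (c := c) (C := C) hc ?_
  have hN : 0 < ((2 * n * k + 1 : ℕ) : ℝ) := by positivity
  have hmem : Ioo (0 : ℝ) (min 1 (η₀ ^ (2 * n * k + 1))) ∈ 𝓝[>] (0 : ℝ) :=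
    Ioo_mem_nhdsGT (by positivity)
  filter_upwards [hmem] with ε hε
  set η : ℝ := ε ^ (1 / ((2 * n * k + 1 : ℕ) : ℝ)) with hη
  have hη0 : 0 < η := Real.rpow_pos_of_pos hε.1 _
  have hηε : η ^ (2 * n * k + 1) = ε := by
    rw [hη, one_div]
    exact Real.rpow_inv_natCast_pow hε.1.le (by omega)
  have hη1 : η ≤ 1 := by
    by_contra hcon
    push Not at hcon
    have h1 : 1 < η ^ (2 * n * k + 1) := one_lt_pow₀ hcon (by omega)
    rw [hηε] at h1
    have := lt_of_lt_of_le hε.2 (min_le_left _ _)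
    linarith
  have hη2 : η ≤ η₀ := by
    by_contra hcon
    push Not at hcon
    have h1 : η₀ ^ (2 * n * k + 1) ≤ η ^ (2 * n * k + 1) := pow_le_pow_left₀ hη₀.le hcon.le _
    rw [hηε] at h1
    have := lt_of_lt_of_le hε.2 (min_le_right _ _)
    linarith
  have hpow : η * η ^ ((n : ℝ) / m) = ε ^ ((1 + (n : ℝ) / m) / (1 + 2 * k * n)) := by
    have e1 : η * η ^ ((n : ℝ) / m) = η ^ (1 + (n : ℝ) / m) := by
      rw [Real.rpow_add hη0, Real.rpow_one]
    rw [e1, hη, ← Real.rpow_mul hε.1.le]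
    congr 1
    push_cast
    field_simp
    ring
  have h1 := hup η hη0 hη1
  have h2 := hlow η hη0 hη2
  rw [hηε, hpow] at h1 h2
  have hεD : 0 < ε ^ ((1 + (n : ℝ) / m) / (1 + 2 * k * n)) := Real.rpow_pos_of_pos hε.1 _
  constructor
  · have := ENNReal.toReal_mono (lt_of_le_of_lt h1 ENNReal.ofReal_lt_top).ne h2
    rwa [ENNReal.toReal_ofReal (by positivity)] at this
  · have := ENNReal.toReal_mono ENNReal.ofReal_ne_top h1
    rwa [ENNReal.toReal_ofReal (by positivity)] at this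

/-- The exponent for a spiral trajectory of the system with `σ = -1`. -/
theorem exponent_neg {m n k : ℕ} (hm : Odd m) (hn : Odd n) (hmn : n ≤ m) (hk : 1 ≤ k)
    {x y : ℝ → ℝ} {t₀ t₁ : ℝ} (ht : t₀ < t₁)
    (hsol : ∀ t > t₀, Solves m n k (-1) x y t) (hne : ∀ t > t₀, (x t, y t) ≠ (0, 0))
    (hlim : Tendsto (fun t => (x t, y t)) atTop (𝓝 (0, 0)))
    {U : Set (ℝ × ℝ)} (hU : U ∈ 𝓝 ((0 : ℝ), (0 : ℝ)))
    (hU' : ∀ t, t₀ < t → t < t₁ → (x t, y t) ∉ U) :
    Tendsto (fun ε => Real.log (volume (nhd {p | p ∈ U ∧ ∃ t > t₀, p = (x t, y t)} ε)).toReal /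
      Real.log ε) (𝓝[>] 0) (𝓝 ((1 + (n : ℝ) / m) / (1 + 2 * k * n))) := by
  obtain ⟨hpos, hcont, hmono, α, hα0, hα1, hcurve⟩ := explicit hm hn hk hsol hne
  set G : ℝ → ℝ := fun t => (rho m n (x t) (y t) ^ k)⁻¹ with hG
  have hGpos : ∀ t > t₀, 0 < G t := fun t ht => by
    have := hpos t ht
    rw [hG]
    positivity
  have hGtop : Tendsto G atTop atTop := by
    rw [hG]
    apply Tendsto.inv_tendsto_nhdsGT_zero
    rw [tendsto_nhdsWithin_iff]
    constructor
    · have hm1 := hm.pos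
      have hn1 := hn.pos
      have hc : Continuous (fun p : ℝ × ℝ => rho m n p.1 p.2 ^ k) := by
        unfold rho
        fun_prop
      have h1 := (hc.tendsto (0, 0)).comp hlim
      have e : rho m n 0 0 ^ k = 0 := by
        unfold rho
        rw [zero_pow (by omega), zero_pow (by omega), add_zero, zero_pow (by omega)]
      simp only [e] at h1
      exact h1
    · filter_upwards [eventually_gt_atTop t₀] with t ht
      have := hpos t ht
      rw [mem_Ioi]
      positivity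
  obtain ⟨t₂, ht₂⟩ : ∃ t₂ > t₀, ∀ t ≥ t₂, (x t, y t) ∈ U := by
    have h1 := (hlim.eventually hU).and (eventually_gt_atTop t₀)
    obtain ⟨s, hs⟩ := (eventually_atTop.1 h1)
    refine ⟨s, (hs s le_rfl).2, fun t ht => (hs t ht).1⟩
  refine spiral_exponent hm hn hmn hk hα0 hα1 (hGpos t₁ ht) (hGpos t₂ ht₂.1) ?_ ?_
  · rintro p ⟨hpU, t, htt, rfl⟩
    refine ⟨G t, ?_, hcurve t htt⟩
    have : t₁ ≤ t := by
      by_contra hcon
      push Not at hcon
      exact hU' t htt hcon hpU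
    exact hmono (by exact ht) (by exact htt) this
  · intro g hg p hp
    obtain ⟨t, htt, hgt⟩ : ∃ t, t₂ ≤ t ∧ G t = g := by
      obtain ⟨s, hs1, hs2⟩ := ((hGtop.eventually_ge_atTop g).and (eventually_ge_atTop t₂)).exists
      have hc : ContinuousOn G (Icc t₂ s) := hcont.mono (fun r hr => lt_of_lt_of_le ht₂.1 hr.1)
      obtain ⟨t, ht1, ht2⟩ := intermediate_value_Icc hs2 hc ⟨hg, hs1⟩
      exact ⟨t, ht1.1, ht2⟩
    have ht0 : t₀ < t := lt_of_lt_of_le ht₂.1 htt
    have hc := hcurve t ht0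
    have e : p = (x t, y t) := by
      have h1 : p.1 = x t := by
        apply hm.strictMono_pow.injective
        simp only
        rw [hp.1, hc.1, ← hgt]
      have h2 : p.2 = y t := by
        apply hn.strictMono_pow.injective
        simp only
        rw [hp.2, hc.2, ← hgt]
      exact Prod.ext h1 h2
    refine ⟨?_, t, ht0, e⟩
    rw [e]
    exact ht₂.2 t htt

/-- Reflection in the `x`-axis. -/
def refl : (ℝ × ℝ) ≃ᵐ (ℝ × ℝ) :=
  MeasurableEquiv.prodCongr (MeasurableEquiv.refl ℝ) (MeasurableEquiv.neg ℝ)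

lemma refl_apply (p : ℝ × ℝ) : refl p = (p.1, -p.2) := rfl

lemma refl_measurePreserving : MeasurePreserving refl volume volume := by
  have h := (MeasurePreserving.id (volume : Measure ℝ)).prod
    (Measure.measurePreserving_neg (volume : Measure ℝ))
  exact h

lemma volume_nhd_refl (S : Set (ℝ × ℝ)) (ε : ℝ) :
    volume (nhd (refl ⁻¹' S) ε) = volume (nhd S ε) := by
  have e : nhd (refl ⁻¹' S) ε = refl ⁻¹' (nhd S ε) := by
    ext p
    constructor
    · intro hp δ hδ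
      obtain ⟨q, hq, hd⟩ := hp δ hδ
      refine ⟨refl q, hq, ?_⟩
      rw [refl_apply, refl_apply]
      have : ((p.1, -p.2) : ℝ × ℝ).2 - ((q.1, -q.2) : ℝ × ℝ).2 = -(p.2 - q.2) := by
        simp only
        ring
      rw [this, neg_sq]
      exact hd
    · intro hp δ hδ
      obtain ⟨q, hq, hd⟩ := hp δ hδ
      refine ⟨refl q, ?_, ?_⟩
      · rw [mem_preimage, refl_apply, refl_apply]
        simpa using hq
      · rw [refl_apply] at hd ⊢
        have : (p.2 - ((q.1, -q.2) : ℝ × ℝ).2) = -(((p.1, -p.2) : ℝ × ℝ).2 - q.2) := by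
          simp only
          ring
        rw [this, neg_sq]
        exact hd
  rw [e]
  exact refl_measurePreserving.measure_preimage_equiv _

/-- The exponent for a spiral trajectory of the system with `σ = 1`. -/
theorem exponent_pos {m n k : ℕ} (hm : Odd m) (hn : Odd n) (hmn : n ≤ m) (hk : 1 ≤ k)
    {x y : ℝ → ℝ} {t₀ t₁ : ℝ} (ht : t₁ < t₀)
    (hsol : ∀ t < t₀, Solves m n k 1 x y t) (hne : ∀ t < t₀, (x t, y t) ≠ (0, 0))
    (hlim : Tendsto (fun t => (x t, y t)) atBot (𝓝 (0, 0)))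
    {U : Set (ℝ × ℝ)} (hU : U ∈ 𝓝 ((0 : ℝ), (0 : ℝ)))
    (hU' : ∀ t, t₁ < t → t < t₀ → (x t, y t) ∉ U) :
    Tendsto (fun ε => Real.log (volume (nhd {p | p ∈ U ∧ ∃ t < t₀, p = (x t, y t)} ε)).toReal /
      Real.log ε) (𝓝[>] 0) (𝓝 ((1 + (n : ℝ) / m) / (1 + 2 * k * n))) := by
  set x' : ℝ → ℝ := fun s => x (-s) with hx'
  set y' : ℝ → ℝ := fun s => -y (-s) with hy'
  have hneven : Even (n - 1) := by
    obtain ⟨r, rfl⟩ := hn
    simp
  have hn2 : Odd (2 * n - 1) := by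
    obtain ⟨r, rfl⟩ := hn
    exact ⟨2 * r, by omega⟩
  have hrho : ∀ s, rho m n (x' s) (y' s) = rho m n (x (-s)) (y (-s)) := by
    intro s
    rw [hx', hy']
    unfold rho
    simp only
    rw [Even.neg_pow (by simp)]
  have hsol' : ∀ s > -t₀, Solves m n k (-1) x' y' s := by
    intro s hs
    have h := hsol (-s) (by linarith)
    constructor
    · have h1 := h.1.comp s (hasDerivAt_neg s)
      have h2 : HasDerivAt x' _ s := h1
      refine h2.congr_deriv ?_
      rw [hrho]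
      rw [hy', hx']
      simp only
      rw [hn2.neg_pow, hneven.neg_pow]
      ring
    · have h1 := (h.2.comp s (hasDerivAt_neg s)).neg
      have h2 : HasDerivAt y' _ s := h1
      refine h2.congr_deriv ?_
      rw [hrho]
      rw [hy', hx']
      simp only
      rw [hn.neg_pow]
      ring
  have hne' : ∀ s > -t₀, (x' s, y' s) ≠ (0, 0) := by
    intro s hs h0
    apply hne (-s) (by linarith)
    rw [Prod.mk.injEq] at h0 ⊢
    exact ⟨h0.1, neg_eq_zero.1 h0.2⟩
  have hlim' : Tendsto (fun s => (x' s, y' s)) atTop (𝓝 (0, 0)) := by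
    have h1 := hlim.comp tendsto_neg_atTop_atBot
    have hc : Continuous (fun p : ℝ × ℝ => (p.1, -p.2)) := by fun_prop
    have h2 := (hc.tendsto (0, 0)).comp h1
    simp only [neg_zero] at h2
    exact h2
  have hrefl : Continuous (refl : ℝ × ℝ → ℝ × ℝ) := by
    have : (refl : ℝ × ℝ → ℝ × ℝ) = fun p => (p.1, -p.2) := rfl
    rw [this]
    fun_prop
  have hUn : refl ⁻¹' U ∈ 𝓝 ((0 : ℝ), (0 : ℝ)) := by
    apply hrefl.continuousAt.preimage_mem_nhds
    rw [refl_apply]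
    simpa using hU
  have hmain := exponent_neg hm hn hmn hk (t₀ := -t₀) (t₁ := -t₁) (by linarith) hsol' hne' hlim'
    hUn (by
      intro s hs1 hs2 hmem
      apply hU' (-s) (by linarith) (by linarith)
      rw [mem_preimage, refl_apply, hx', hy'] at hmem
      simpa using hmem)
  have e : {p | p ∈ refl ⁻¹' U ∧ ∃ t > -t₀, p = (x' t, y' t)} =
      refl ⁻¹' {p | p ∈ U ∧ ∃ t < t₀, p = (x t, y t)} := by
    ext p
    constructor
    · rintro ⟨hpU, t, htt, rfl⟩
      refine ⟨hpU, -t, by linarith, ?_⟩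
      rw [refl_apply, hx', hy']
      simp
    · rintro ⟨hpU, t, htt, hpt⟩
      refine ⟨hpU, -t, by linarith, ?_⟩
      rw [refl_apply, Prod.mk.injEq] at hpt
      rw [hx', hy']
      simp only [neg_neg]
      exact Prod.ext hpt.1 (by rw [← hpt.2, neg_neg])
  rw [e] at hmain
  simp only [volume_nhd_refl] at hmain
  exact hmain

end Pool.Agent.Q120.SPI
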