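import Pool.Agent.Q120.SPI.Upper

/-!
# The lower bound for the area of a neighbourhood of the spiral
-/

set_option autoImplicit false

namespace Pool.Agent.Q120.SPI

open Set MeasureTheory Filter Topology

lemma rad_pow {k : ℕ} (hk : 1 ≤ k) {g : ℝ} (hg : 0 < g) : (rad k g ^ 2) ^ k = 1 / g := by
  have hk1 : (1 : ℝ) ≤ k := by exact_mod_cast hk
  unfold rad
  rw [← pow_mul, ← Real.rpow_natCast, ← Real.rpow_mul hg.le]
  have : -(1 / (2 * (k : ℝ))) * ((2 * k : ℕ) : ℝ) = -1 := by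
    push_cast
    field_simp
  rw [this, Real.rpow_neg_one, one_div]

lemma rad_pos {k : ℕ} {g : ℝ} (hg : 0 < g) : 0 < rad k g := Real.rpow_pos_of_pos hg _

lemma lower_point {m n k : ℕ} (hn : Odd n) (hk : 1 ≤ k) {α g₁ : ℝ} (hg₁ : 0 < g₁)
    {S : Set (ℝ × ℝ)} (hS : ∀ g, g₁ ≤ g → ∀ p, OnCurve m n k α g p → p ∈ S) {x₀ y₀ : ℝ}
    (hy₀ : 0 < y₀) (hx₀ : x₀ ^ (2 * m) ≤ y₀ ^ (2 * n))
    (hsmall : 16 * Real.pi * k + g₁ ≤ 1 / (x₀ ^ (2 * m) + y₀ ^ (2 * n)) ^ k) :
    ∃ y : ℝ, (x₀, y) ∈ S ∧ y₀ ≤ y ∧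
      y - y₀ ≤ 16 * Real.pi * k * 2 ^ (k + 1) * y₀ ^ (2 * n * k + 1) := by
  have hk1 : (1 : ℝ) ≤ k := by exact_mod_cast hk
  have hπ := Real.pi_pos
  have hn1 : 1 ≤ n := hn.pos
  set P : ℝ := x₀ ^ (2 * m) + y₀ ^ (2 * n) with hP
  have hx0 : 0 ≤ x₀ ^ (2 * m) := by rw [pow_mul]; positivity
  have hy0 : 0 < y₀ ^ (2 * n) := by positivity
  have hP0 : 0 < P := by rw [hP]; linarith
  have hPk : 0 < P ^ k := by positivity
  set G : ℝ := 1 / P ^ k with hG
  have hG0 : 0 < G := by positivity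
  have hG1 : 0 < G - 8 * Real.pi * k := by nlinarith
  have hG2 : g₁ ≤ G - 8 * Real.pi * k := by nlinarith
  set j : ℤ := ⌈ang k α (G - 8 * Real.pi * k) / (2 * Real.pi)⌉ with hj
  have hj1 : ang k α (G - 8 * Real.pi * k) ≤ j * (2 * Real.pi) := by
    have := Int.le_ceil (ang k α (G - 8 * Real.pi * k) / (2 * Real.pi))
    rwa [← hj, div_le_iff₀ (by positivity)] at this
  have hj2 : (j : ℝ) * (2 * Real.pi) ≤ ang k α (G - 8 * Real.pi * k) + 2 * Real.pi := by
    have h1 := Int.ceil_lt_add_one (ang k α (G - 8 * Real.pi * k) / (2 * Real.pi))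
    rw [← hj] at h1
    have h2 : ((j : ℝ) - 1) < ang k α (G - 8 * Real.pi * k) / (2 * Real.pi) := by linarith
    rw [lt_div_iff₀ (by positivity)] at h2
    linarith
  set g' : ℝ := 2 * k * (j * (2 * Real.pi) - α) with hg'
  set g'' : ℝ := 2 * k * (j * (2 * Real.pi) + Real.pi - α) with hg''
  have hang' : ang k α g' = j * (2 * Real.pi) := by
    unfold ang
    rw [hg']
    field_simp
    ring
  have hang'' : ang k α g'' = j * (2 * Real.pi) + Real.pi := by
    unfold ang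
    rw [hg'']
    field_simp
    ring
  have hg'1 : G - 8 * Real.pi * k ≤ g' := by
    unfold ang at hj1
    have h1 : (G - 8 * Real.pi * k) / (2 * k) ≤ j * (2 * Real.pi) - α := by linarith
    rw [div_le_iff₀ (by positivity)] at h1
    rw [hg']
    linarith
  have hg''1 : g'' ≤ G := by
    unfold ang at hj2
    have h1 : (j : ℝ) * (2 * Real.pi) - α - 2 * Real.pi ≤ (G - 8 * Real.pi * k) / (2 * k) := by
      linarith
    rw [le_div_iff₀ (by positivity)] at h1
    rw [hg'']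
    nlinarith
  have hgg : g' ≤ g'' := by
    rw [hg', hg'']
    apply mul_le_mul_of_nonneg_left _ (by positivity)
    linarith
  have hg'0 : 0 < g' := by linarith
  have hrad : ∀ g, 0 < g → g ≤ G → P ≤ rad k g ^ 2 := by
    intro g hg0 hgG
    have h1 : P ^ k ≤ (rad k g ^ 2) ^ k := by
      rw [rad_pow hk hg0]
      have h2 : 1 / G ≤ 1 / g := one_div_le_one_div_of_le hg0 hgG
      rw [hG, one_div_one_div] at h2
      exact h2
    exact (pow_le_pow_iff_left₀ hP0.le (by positivity) (by omega)).1 h1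
  have hx2 : (x₀ ^ m) ^ 2 = x₀ ^ (2 * m) := by rw [← pow_mul, mul_comm]
  have hlt : ∀ g, 0 < g → g ≤ G → |x₀ ^ m| < rad k g := by
    intro g hg0 hgG
    have h1 := hrad g hg0 hgG
    apply abs_lt_of_sq_lt_sq _ (rad_pos hg0).le
    rw [hx2]
    linarith
  set h : ℝ → ℝ := fun g => rad k g * Real.cos (ang k α g) with hh
  have hcont : ContinuousOn h (Icc g' g'') := by
    apply ContinuousOn.mul
    · unfold rad
      intro g hg
      apply ContinuousAt.continuousWithinAt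
      apply Real.continuousAt_rpow_const
      left
      have : 0 < g := lt_of_lt_of_le hg'0 hg.1
      exact this.ne'
    · unfold ang
      fun_prop
  have hcos' : Real.cos (ang k α g') = 1 := by
    rw [hang']
    exact Real.cos_int_mul_two_pi j
  have hcos'' : Real.cos (ang k α g'') = -1 := by
    rw [hang'', Real.cos_add_pi, Real.cos_int_mul_two_pi]
  have hv : x₀ ^ m ∈ Icc (h g'') (h g') := by
    rw [hh]
    simp only
    rw [hcos', hcos'']
    have h1 := abs_lt.1 (hlt g' hg'0 (hgg.trans hg''1))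
    have h2 := abs_lt.1 (hlt g'' (by linarith) hg''1)
    constructor <;> linarith [h1.1, h1.2, h2.1, h2.2]
  obtain ⟨g, hg, hgx⟩ := intermediate_value_Icc' hgg hcont hv
  rw [hh] at hgx
  simp only at hgx
  have hg0 : 0 < g := lt_of_lt_of_le hg'0 hg.1
  have hgG : g ≤ G := hg.2.trans hg''1
  have hsin0 : 0 ≤ Real.sin (ang k α g) := by
    have e : Real.sin (ang k α g) = Real.sin (ang k α g - j * (2 * Real.pi)) := by
      rw [Real.sin_sub_int_mul_two_pi]
    rw [e]
    have hmono : ∀ a b : ℝ, a ≤ b → ang k α a ≤ ang k α b := by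
      intro a b hab
      unfold ang
      have := div_le_div_of_nonneg_right hab (show (0 : ℝ) ≤ 2 * k by positivity)
      linarith
    apply Real.sin_nonneg_of_nonneg_of_le_pi
    · have := hmono _ _ hg.1
      rw [hang'] at this
      linarith
    · have := hmono _ _ hg.2
      rw [hang''] at this
      linarith
  set y : ℝ := rt n (rad k g * Real.sin (ang k α g)) with hy
  have hyn : y ^ n = rad k g * Real.sin (ang k α g) := rt_pow hn _
  have hy_nonneg : 0 ≤ y := by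
    by_contra hcon
    push Not at hcon
    have h1 := hn.strictMono_pow hcon
    simp only at h1
    rw [hyn, zero_pow (by omega)] at h1
    have : 0 ≤ rad k g * Real.sin (ang k α g) := mul_nonneg (rad_pos hg0).le hsin0
    linarith
  have hρ : rad k g ^ 2 = x₀ ^ (2 * m) + y ^ (2 * n) := by
    have e1 : y ^ (2 * n) = (y ^ n) ^ 2 := by rw [← pow_mul, mul_comm]
    rw [e1, hyn, ← hx2, ← hgx]
    have := Real.sin_sq_add_cos_sq (ang k α g)
    linear_combination (-(rad k g ^ 2)) * this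
  have hρP : P ≤ rad k g ^ 2 := hrad g hg0 hgG
  have hy2 : y₀ ^ (2 * n) ≤ y ^ (2 * n) := by
    rw [hρ, hP] at hρP
    linarith
  have hyy : y₀ ≤ y := (pow_le_pow_iff_left₀ hy₀.le hy_nonneg (by omega)).1 hy2
  refine ⟨y, hS g (hG2.trans (hg'1.trans hg.1)) _ ⟨hgx.symm, hyn⟩, hyy, ?_⟩
  -- the difference of the levels
  have hlev : rad k g ^ 2 - P ≤ 16 * Real.pi * k * P ^ (k + 1) := by
    set t : ℝ := rad k g ^ 2 / P with ht
    have ht1 : 1 ≤ t := by
      rw [ht, le_div_iff₀ hP0]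
      linarith
    have htk : t ≤ t ^ k := le_self_pow₀ ht1 (by omega)
    have htk2 : t ^ k = G / g := by
      rw [ht, div_pow, rad_pow hk hg0, hG]
      field_simp
    have hgl : G - 8 * Real.pi * k ≤ g := hg'1.trans hg.1
    have h1 : G / g ≤ 1 + 16 * Real.pi * k / G := by
      rw [div_le_iff₀ hg0]
      have h2 : 0 ≤ 1 + 16 * Real.pi * k / G := by positivity
      have h3 : (1 + 16 * Real.pi * k / G) * (G - 8 * Real.pi * k) ≤
          (1 + 16 * Real.pi * k / G) * g := mul_le_mul_of_nonneg_left hgl h2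
      have h4 : G ≤ (1 + 16 * Real.pi * k / G) * (G - 8 * Real.pi * k) := by
        have e : (1 + 16 * Real.pi * k / G) * (G - 8 * Real.pi * k) =
            G + 8 * Real.pi * k - 8 * Real.pi * k * (16 * Real.pi * k / G) := by
          field_simp
          ring
        rw [e]
        have h5 : 16 * Real.pi * k / G ≤ 1 := by
          rw [div_le_one hG0]
          linarith
        have h6 : 0 ≤ 8 * Real.pi * k := by positivity
        nlinarith
      linarith
    have h2 : t ≤ 1 + 16 * Real.pi * k * P ^ k := by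
      have e : 16 * Real.pi * k / G = 16 * Real.pi * k * P ^ k := by
        rw [hG]
        field_simp
      rw [← e]
      linarith
    have h3 : rad k g ^ 2 = t * P := by
      rw [ht]
      field_simp
    rw [h3, pow_succ]
    nlinarith
  have hyd : (y - y₀) * y₀ ^ (2 * n - 1) ≤ rad k g ^ 2 - P := by
    rw [hρ, hP]
    have e1 : y ^ (2 * n) = y * y ^ (2 * n - 1) := by
      rw [← pow_succ']
      congr 1
      omega
    have e2 : y₀ ^ (2 * n) = y₀ * y₀ ^ (2 * n - 1) := by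
      rw [← pow_succ']
      congr 1
      omega
    have e3 : y₀ ^ (2 * n - 1) ≤ y ^ (2 * n - 1) := pow_le_pow_left₀ hy₀.le hyy _
    have e4 : y * y₀ ^ (2 * n - 1) ≤ y * y ^ (2 * n - 1) :=
      mul_le_mul_of_nonneg_left e3 hy_nonneg
    rw [e1, e2]
    linarith
  have hPy : P ≤ 2 * y₀ ^ (2 * n) := by rw [hP]; linarith
  have hPk1 : P ^ (k + 1) ≤ 2 ^ (k + 1) * (y₀ ^ (2 * n * k + 1) * y₀ ^ (2 * n - 1)) := by
    have h1 : P ^ (k + 1) ≤ (2 * y₀ ^ (2 * n)) ^ (k + 1) := pow_le_pow_left₀ hP0.le hPy _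
    rw [mul_pow, ← pow_mul] at h1
    have e : 2 * n * (k + 1) = (2 * n * k + 1) + (2 * n - 1) := by
      have : 2 * n * (k + 1) = 2 * n * k + 2 * n := by ring
      omega
    rw [e, pow_add y₀] at h1
    exact h1
  have hfin : (y - y₀) * y₀ ^ (2 * n - 1) ≤
      16 * Real.pi * k * 2 ^ (k + 1) * y₀ ^ (2 * n * k + 1) * y₀ ^ (2 * n - 1) := by
    have h1 := mul_le_mul_of_nonneg_left hPk1 (show 0 ≤ 16 * Real.pi * k by positivity)
    linarith
  exact le_of_mul_le_mul_right hfin (by positivity)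

theorem lower {m n k : ℕ} (hm : Odd m) (hn : Odd n) (hk : 1 ≤ k) {α g₁ : ℝ} (hg₁ : 0 < g₁)
    {S : Set (ℝ × ℝ)} (hS : ∀ g, g₁ ≤ g → ∀ p, OnCurve m n k α g p → p ∈ S) :
    ∃ c : ℝ, 0 < c ∧ ∃ η₀ : ℝ, 0 < η₀ ∧ ∀ η : ℝ, 0 < η → η ≤ η₀ →
      ENNReal.ofReal (c * (η * η ^ ((n : ℝ) / m))) ≤
        volume (nhd S (η ^ (2 * n * k + 1))) := by
  have hk1 : (1 : ℝ) ≤ k := by exact_mod_cast hk
  have hπ := Real.pi_pos
  have hπ3 := Real.pi_gt_three
  have hn1 : 1 ≤ n := hn.pos
  have hm1 : 1 ≤ m := hm.pos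
  set C : ℝ := 16 * Real.pi * k * 2 ^ (k + 1) with hC
  have hC1 : 1 ≤ C := by
    rw [hC]
    have h1 : (1 : ℝ) ≤ 2 ^ (k + 1) := one_le_pow₀ (by norm_num)
    have h2 : 1 ≤ 16 * Real.pi * k := by nlinarith
    nlinarith
  have hC0 : 0 < C := by linarith
  set l : ℝ := 1 / C with hl
  have hl0 : 0 < l := by positivity
  have hl1 : l ≤ 1 := by rw [hl, div_le_one hC0]; exact hC1
  refine ⟨2 * (l / 2) ^ ((n : ℝ) / m) * (l / 2), by positivity,
    min 1 (1 / (2 ^ k * (16 * Real.pi * k + g₁))), by positivity, ?_⟩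
  intro η hη0 hη
  have hη1 : η ≤ 1 := hη.trans (min_le_left _ _)
  have hη2 : η ≤ 1 / (2 ^ k * (16 * Real.pi * k + g₁)) := hη.trans (min_le_right _ _)
  have hlη : 0 < l * η := by positivity
  set X : ℝ := (l * η / 2) ^ ((n : ℝ) / m) with hX
  have hX0 : 0 < X := by positivity
  have hXm : X ^ (2 * m) = (l * η / 2) ^ (2 * n) := by
    rw [hX, ← Real.rpow_natCast, ← Real.rpow_mul (by positivity)]
    have : (n : ℝ) / m * ((2 * m : ℕ) : ℝ) = ((2 * n : ℕ) : ℝ) := by
      push_cast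
      have : (m : ℝ) ≠ 0 := by
        have : m ≠ 0 := by omega
        exact_mod_cast this
      field_simp
    rw [this, Real.rpow_natCast]
  have hsub : (Icc (-X) X ×ˢ Icc (l * η / 2) (l * η) : Set (ℝ × ℝ)) ⊆
      nhd S (η ^ (2 * n * k + 1)) := by
    rintro ⟨x₀, y₀⟩ ⟨hx, hy⟩
    simp only [mem_Icc] at hx hy
    have hy₀ : 0 < y₀ := by linarith [hy.1]
    have hx₀ : x₀ ^ (2 * m) ≤ y₀ ^ (2 * n) := by
      have h1 : |x₀| ≤ X := abs_le.2 hx
      have h2 : x₀ ^ (2 * m) ≤ X ^ (2 * m) := by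
        have e : x₀ ^ (2 * m) = |x₀| ^ (2 * m) := by
          rw [pow_mul, pow_mul, sq_abs]
        rw [e]
        exact pow_le_pow_left₀ (abs_nonneg _) h1 _
      rw [hXm] at h2
      exact h2.trans (pow_le_pow_left₀ (by positivity) hy.1 _)
    have hx0 : 0 ≤ x₀ ^ (2 * m) := by rw [pow_mul]; positivity
    have hP : (x₀ ^ (2 * m) + y₀ ^ (2 * n)) ^ k ≤ 2 ^ k * η := by
      have h1 : x₀ ^ (2 * m) + y₀ ^ (2 * n) ≤ 2 * y₀ ^ (2 * n) := by linarith
      have h2 : y₀ ≤ η := by nlinarith [hy.2]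
      have h3 : (x₀ ^ (2 * m) + y₀ ^ (2 * n)) ^ k ≤ (2 * y₀ ^ (2 * n)) ^ k :=
        pow_le_pow_left₀ (by positivity) h1 _
      rw [mul_pow, ← pow_mul] at h3
      refine h3.trans (mul_le_mul_of_nonneg_left ?_ (by positivity))
      have h4 : y₀ ^ (2 * n * k) ≤ η ^ (2 * n * k) := pow_le_pow_left₀ hy₀.le h2 _
      refine h4.trans ?_
      have h5 : η ^ (2 * n * k) ≤ η ^ 1 := pow_le_pow_of_le_one hη0.le hη1 (by
        have : 1 ≤ n * k := Nat.mul_pos hn1 hk
        nlinarith)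
      rwa [pow_one] at h5
    have hPpos : 0 < (x₀ ^ (2 * m) + y₀ ^ (2 * n)) ^ k := by positivity
    have hsmall : 16 * Real.pi * k + g₁ ≤ 1 / (x₀ ^ (2 * m) + y₀ ^ (2 * n)) ^ k := by
      rw [le_div_iff₀ hPpos]
      have hpos : 0 < 16 * Real.pi * k + g₁ := by positivity
      have h1 := mul_le_mul_of_nonneg_left hP hpos.le
      refine h1.trans ?_
      rw [le_div_iff₀ (by positivity)] at hη2
      linarith
    obtain ⟨y, hyS, hyy, hyd⟩ := lower_point hn hk hg₁ hS hy₀ hx₀ hsmall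
    rw [← hC] at hyd
    have hyε : y - y₀ ≤ η ^ (2 * n * k + 1) := by
      have h1 : y₀ ^ (2 * n * k + 1) ≤ (l * η) ^ (2 * n * k + 1) :=
        pow_le_pow_left₀ hy₀.le hy.2 _
      have h2 : l ^ (2 * n * k + 1) ≤ l := by
        have := pow_le_pow_of_le_one hl0.le hl1 (show 1 ≤ 2 * n * k + 1 by omega)
        rwa [pow_one] at this
      calc y - y₀ ≤ C * y₀ ^ (2 * n * k + 1) := hyd
        _ ≤ C * (l * η) ^ (2 * n * k + 1) := mul_le_mul_of_nonneg_left h1 hC0.le
        _ = C * l ^ (2 * n * k + 1) * η ^ (2 * n * k + 1) := by rw [mul_pow]; ring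
        _ ≤ C * l * η ^ (2 * n * k + 1) := by
            apply mul_le_mul_of_nonneg_right _ (by positivity)
            exact mul_le_mul_of_nonneg_left h2 hC0.le
        _ = η ^ (2 * n * k + 1) := by
            rw [hl]
            field_simp
    intro δ hδ
    refine ⟨(x₀, y), hyS, ?_⟩
    simp only [sub_self]
    rw [zero_pow two_ne_zero, zero_add, Real.sqrt_sq_eq_abs, abs_sub_comm,
      abs_of_nonneg (by linarith)]
    linarith
  refine le_trans ?_ (measure_mono hsub)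
  rw [volume_rect, ← ENNReal.ofReal_mul (by linarith)]
  apply ENNReal.ofReal_le_ofReal
  apply le_of_eq
  have e : X = (l / 2) ^ ((n : ℝ) / m) * η ^ ((n : ℝ) / m) := by
    rw [hX, ← Real.mul_rpow (by positivity) hη0.le]
    congr 1
    ring
  rw [e]
  ring

end Pool.Agent.Q120.SPI
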