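import Pool.Agent.Q120.SPI.Lower

/-!
# The trajectories are explicit spirals

For a solution of the system with `σ = -1` the functions `X = x^m`, `Y = y^n` and
`G = (x^(2m) + y^(2n))^(-k)` satisfy `X = G^(-1/2k) cos (G / 2k + α)` and
`Y = G^(-1/2k) sin (G / 2k + α)` with a constant `α`.
-/

set_option autoImplicit false

namespace Pool.Agent.Q120.SPI

open Set MeasureTheory Filter Topology

/-- The function `ρ`. -/
def rho (m n : ℕ) (x y : ℝ) : ℝ := x ^ (2 * m) + y ^ (2 * n)

/-- The functions `x`, `y` solve the system at the time `t`. -/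
def Solves (m n k : ℕ) (σ : ℝ) (x y : ℝ → ℝ) (t : ℝ) : Prop :=
  HasDerivAt x (-n * y t ^ (2 * n - 1) +
    σ * n * x t ^ m * y t ^ (n - 1) * rho m n (x t) (y t) ^ k) t ∧
  HasDerivAt y (m * x t ^ (2 * m - 1) +
    σ * m * x t ^ (m - 1) * y t ^ n * rho m n (x t) (y t) ^ k) t

lemma exists_angle {A B : ℝ} (h : A ^ 2 + B ^ 2 = 1) :
    ∃ α : ℝ, 0 ≤ α ∧ α ≤ 2 * Real.pi ∧ A = Real.cos α ∧ B = Real.sin α := by
  set z : ℂ := ⟨A, B⟩ with hz
  have hnorm : ‖z‖ = 1 := by
    rw [Complex.norm_def, Complex.normSq_mk]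
    have : A * A + B * B = 1 := by nlinarith
    rw [this, Real.sqrt_one]
  have hz0 : z ≠ 0 := by
    intro h0
    rw [h0, norm_zero] at hnorm
    norm_num at hnorm
  have hc : Real.cos z.arg = A := by
    rw [Complex.cos_arg hz0, hnorm, div_one]
  have hs : Real.sin z.arg = B := by
    rw [Complex.sin_arg, hnorm, div_one]
  by_cases h0 : 0 ≤ z.arg
  · exact ⟨z.arg, h0, by have := Complex.arg_le_pi z; linarith [Real.pi_pos], hc.symm, hs.symm⟩
  · push Not at h0
    refine ⟨z.arg + 2 * Real.pi, ?_, by linarith, ?_, ?_⟩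
    · have := Complex.neg_pi_lt_arg z
      linarith [Real.pi_pos]
    · rw [Real.cos_add_two_pi, hc]
    · rw [Real.sin_add_two_pi, hs]

/-- The system in the coordinates `X = x^m`, `Y = y^n`. -/
lemma explicit {m n k : ℕ} (hm : Odd m) (hn : Odd n) (hk : 1 ≤ k) {x y : ℝ → ℝ} {t₀ : ℝ}
    (hsol : ∀ t > t₀, Solves m n k (-1) x y t) (hne : ∀ t > t₀, (x t, y t) ≠ (0, 0)) :
    (∀ t > t₀, 0 < rho m n (x t) (y t)) ∧
    ContinuousOn (fun t => (rho m n (x t) (y t) ^ k)⁻¹) (Ioi t₀) ∧
    MonotoneOn (fun t => (rho m n (x t) (y t) ^ k)⁻¹) (Ioi t₀) ∧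
    ∃ α : ℝ, 0 ≤ α ∧ α ≤ 2 * Real.pi ∧
      ∀ t > t₀, OnCurve m n k α (rho m n (x t) (y t) ^ k)⁻¹ (x t, y t) := by
  obtain ⟨m', rfl⟩ : ∃ m', m = m' + 1 := ⟨m - 1, by have := hm.pos; omega⟩
  obtain ⟨n', rfl⟩ : ∃ n', n = n' + 1 := ⟨n - 1, by have := hn.pos; omega⟩
  have hm' : Even m' := by
    rcases Nat.even_or_odd m' with h | h
    · exact h
    · exact absurd hm (by simpa using h.add_one)
  have hn' : Even n' := by
    rcases Nat.even_or_odd n' with h | h
    · exact h
    · exact absurd hn (by simpa using h.add_one)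
  have hk1 : (1 : ℝ) ≤ k := by exact_mod_cast hk
  set R : ℝ → ℝ := fun t => rho (m' + 1) (n' + 1) (x t) (y t) with hR
  set w : ℝ → ℝ := fun t => ((m' : ℝ) + 1) * (n' + 1) * x t ^ m' * y t ^ n' with hw
  have hRpos : ∀ t > t₀, 0 < R t := by
    intro t ht
    rw [hR]
    simp only [rho]
    have h1 : 0 ≤ x t ^ (2 * (m' + 1)) := by rw [pow_mul]; positivity
    have h2 : 0 ≤ y t ^ (2 * (n' + 1)) := by rw [pow_mul]; positivity
    by_contra hcon
    push Not at hcon
    have h3 : x t ^ (2 * (m' + 1)) = 0 := by linarith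
    have h4 : y t ^ (2 * (n' + 1)) = 0 := by linarith
    exact hne t ht (by rw [pow_eq_zero_iff (by omega)] at h3 h4; rw [h3, h4])
  have hx : ∀ t > t₀, HasDerivAt x (-((n' : ℝ) + 1) * y t ^ (2 * n' + 1) -
      (n' + 1) * x t ^ (m' + 1) * y t ^ n' * R t ^ k) t := by
    intro t ht
    have h := (hsol t ht).1
    have e : 2 * (n' + 1) - 1 = 2 * n' + 1 := by omega
    rw [e, Nat.add_sub_cancel] at h
    push_cast at h
    convert h using 1
    ring
  have hy : ∀ t > t₀, HasDerivAt y (((m' : ℝ) + 1) * x t ^ (2 * m' + 1) -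
      (m' + 1) * x t ^ m' * y t ^ (n' + 1) * R t ^ k) t := by
    intro t ht
    have h := (hsol t ht).2
    have e : 2 * (m' + 1) - 1 = 2 * m' + 1 := by omega
    rw [e, Nat.add_sub_cancel] at h
    push_cast at h
    convert h using 1
    ring
  have hX : ∀ t > t₀, HasDerivAt (fun s => x s ^ (m' + 1))
      (-w t * (y t ^ (n' + 1) + x t ^ (m' + 1) * R t ^ k)) t := by
    intro t ht
    have h := (hx t ht).pow (m' + 1)
    rw [Nat.add_sub_cancel] at h
    refine h.congr_deriv ?_
    rw [hw]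
    simp only
    push_cast
    ring
  have hY : ∀ t > t₀, HasDerivAt (fun s => y s ^ (n' + 1))
      (w t * (x t ^ (m' + 1) - y t ^ (n' + 1) * R t ^ k)) t := by
    intro t ht
    have h := (hy t ht).pow (n' + 1)
    rw [Nat.add_sub_cancel] at h
    refine h.congr_deriv ?_
    rw [hw]
    simp only
    push_cast
    ring
  have hRXY : ∀ t, R t = (x t ^ (m' + 1)) ^ 2 + (y t ^ (n' + 1)) ^ 2 := by
    intro t
    rw [hR]
    simp only [rho]
    rw [← pow_mul, ← pow_mul, mul_comm 2, mul_comm 2]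
  have hRd : ∀ t > t₀, HasDerivAt R (-2 * w t * R t ^ (k + 1)) t := by
    intro t ht
    have h := ((hX t ht).pow 2).add ((hY t ht).pow 2)
    have e : (fun s => (x s ^ (m' + 1)) ^ 2 + (y s ^ (n' + 1)) ^ 2) = R := by
      funext s
      exact (hRXY s).symm
    have h2 : HasDerivAt (fun s => (x s ^ (m' + 1)) ^ 2 + (y s ^ (n' + 1)) ^ 2) _ t := h
    rw [e] at h2
    refine h2.congr_deriv ?_
    have e2 := hRXY t
    push_cast
    rw [pow_succ (R t) k]
    linear_combination (2 * w t * R t ^ k) * e2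
  set G : ℝ → ℝ := fun t => (R t ^ k)⁻¹ with hG
  have hGd : ∀ t > t₀, HasDerivAt G (2 * k * w t) t := by
    intro t ht
    have hRp := hRpos t ht
    have h := ((hRd t ht).pow k).inv (pow_ne_zero k hRp.ne')
    have h2 : HasDerivAt G _ t := h
    refine h2.congr_deriv ?_
    obtain ⟨j, rfl⟩ : ∃ j, k = j + 1 := ⟨k - 1, by omega⟩
    rw [Nat.add_sub_cancel]
    simp only [Pi.pow_apply]
    push_cast
    field_simp
    ring
  have hGpos : ∀ t > t₀, 0 < G t := fun t ht => by
    have := hRpos t ht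
    rw [hG]
    positivity
  have hwnn : ∀ t, 0 ≤ w t := by
    intro t
    rw [hw]
    simp only
    have h1 : 0 ≤ x t ^ m' := hm'.pow_nonneg _
    have h2 : 0 ≤ y t ^ n' := hn'.pow_nonneg _
    positivity
  have hGcont : ContinuousOn G (Ioi t₀) := fun t ht =>
    (hGd t ht).continuousAt.continuousWithinAt
  have hGmono : MonotoneOn G (Ioi t₀) := by
    apply monotoneOn_of_deriv_nonneg (convex_Ioi t₀) hGcont
    · rw [interior_Ioi]
      exact fun t ht => (hGd t ht).differentiableAt.differentiableWithinAt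
    · rw [interior_Ioi]
      intro t ht
      rw [(hGd t ht).deriv]
      have := hwnn t
      positivity
  refine ⟨hRpos, hGcont, hGmono, ?_⟩
  -- the rotating frame
  set q : ℝ → ℝ := fun t => (Real.sqrt (R t))⁻¹ with hq
  have hqd : ∀ t > t₀, HasDerivAt q (q t * w t * R t ^ k) t := by
    intro t ht
    have hRp := hRpos t ht
    have hs := Real.sqrt_pos.2 hRp
    have h := ((hRd t ht).sqrt hRp.ne').inv hs.ne'
    have h2 : HasDerivAt q _ t := h
    refine h2.congr_deriv ?_
    rw [hq]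
    simp only
    have e : Real.sqrt (R t) ^ 2 = R t := Real.sq_sqrt hRp.le
    field_simp
    rw [pow_succ (R t) k]
    linear_combination (-(w t * R t ^ k)) * e
  set u : ℝ → ℝ := fun t => x t ^ (m' + 1) * q t with hu
  set v : ℝ → ℝ := fun t => y t ^ (n' + 1) * q t with hv
  have hud : ∀ t > t₀, HasDerivAt u (-w t * v t) t := by
    intro t ht
    have h := (hX t ht).mul (hqd t ht)
    have h2 : HasDerivAt u _ t := h
    refine h2.congr_deriv ?_
    rw [hv]
    simp only
    ring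
  have hvd : ∀ t > t₀, HasDerivAt v (w t * u t) t := by
    intro t ht
    have h := (hY t ht).mul (hqd t ht)
    have h2 : HasDerivAt v _ t := h
    refine h2.congr_deriv ?_
    rw [hu]
    simp only
    ring
  have hθd : ∀ t > t₀, HasDerivAt (fun s => G s / (2 * (k : ℝ))) (w t) t := by
    intro t ht
    refine ((hGd t ht).div_const (2 * (k : ℝ))).congr_deriv ?_
    field_simp
  set A : ℝ → ℝ := fun t => u t * Real.cos (G t / (2 * (k : ℝ))) +
    v t * Real.sin (G t / (2 * (k : ℝ))) with hA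
  set B : ℝ → ℝ := fun t => -(u t * Real.sin (G t / (2 * (k : ℝ)))) +
    v t * Real.cos (G t / (2 * (k : ℝ))) with hB
  have hAd : ∀ t > t₀, HasDerivAt A 0 t := by
    intro t ht
    have h := ((hud t ht).mul (hθd t ht).cos).add ((hvd t ht).mul (hθd t ht).sin)
    have h2 : HasDerivAt A _ t := h
    refine h2.congr_deriv ?_
    ring
  have hBd : ∀ t > t₀, HasDerivAt B 0 t := by
    intro t ht
    have h := ((hud t ht).mul (hθd t ht).sin).neg.add ((hvd t ht).mul (hθd t ht).cos)
    have h2 : HasDerivAt B _ t := h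
    refine h2.congr_deriv ?_
    ring
  have hAc : ∀ t > t₀, A t = A (t₀ + 1) := by
    intro t ht
    exact isOpen_Ioi.is_const_of_deriv_eq_zero isPreconnected_Ioi
      (fun s hs => (hAd s hs).differentiableAt.differentiableWithinAt)
      (fun s hs => (hAd s hs).deriv) ht (by simp)
  have hBc : ∀ t > t₀, B t = B (t₀ + 1) := by
    intro t ht
    exact isOpen_Ioi.is_const_of_deriv_eq_zero isPreconnected_Ioi
      (fun s hs => (hBd s hs).differentiableAt.differentiableWithinAt)
      (fun s hs => (hBd s hs).deriv) ht (by simp)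
  have huv : ∀ t > t₀, u t ^ 2 + v t ^ 2 = 1 := by
    intro t ht
    have hRp := hRpos t ht
    have e : Real.sqrt (R t) ^ 2 = R t := Real.sq_sqrt hRp.le
    have hs := Real.sqrt_pos.2 hRp
    rw [hu, hv, hq]
    simp only
    have e2 := hRXY t
    field_simp
    rw [e]
    exact e2.symm
  have hAB : A (t₀ + 1) ^ 2 + B (t₀ + 1) ^ 2 = 1 := by
    have h1 := huv (t₀ + 1) (by simp)
    have h2 := Real.sin_sq_add_cos_sq (G (t₀ + 1) / (2 * (k : ℝ)))
    rw [hA, hB]
    simp only
    linear_combination h1 + (u (t₀ + 1) ^ 2 + v (t₀ + 1) ^ 2) * h2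
  obtain ⟨α, hα0, hα1, hαA, hαB⟩ := exists_angle hAB
  refine ⟨α, hα0, hα1, ?_⟩
  intro t ht
  have hRp := hRpos t ht
  have hs := Real.sqrt_pos.2 hRp
  have hrad : rad k (G t) = Real.sqrt (R t) := by
    have h1 : (rad k (G t) ^ 2) ^ k = R t ^ k := by
      rw [rad_pow hk (hGpos t ht), hG]
      simp
    have h2 : rad k (G t) ^ 2 = R t :=
      (pow_left_inj₀ (by positivity) hRp.le (by omega)).1 h1
    rw [← h2, Real.sqrt_sq (rad_pos (hGpos t ht)).le]
  have hXu : x t ^ (m' + 1) = Real.sqrt (R t) * u t := by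
    rw [hu, hq]
    simp only
    field_simp
  have hYv : y t ^ (n' + 1) = Real.sqrt (R t) * v t := by
    rw [hv, hq]
    simp only
    field_simp
  have hAt := hAc t ht
  have hBt := hBc t ht
  rw [hαA] at hAt
  rw [hαB] at hBt
  rw [hA] at hAt
  rw [hB] at hBt
  simp only at hAt hBt
  have hcs := Real.sin_sq_add_cos_sq (G t / (2 * (k : ℝ)))
  refine ⟨?_, ?_⟩
  · change x t ^ (m' + 1) = rad k (G t) * Real.cos (ang k α (G t))
    rw [hrad, hXu]
    congr 1
    unfold ang
    rw [Real.cos_add, ← hAt, ← hBt]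
    linear_combination (-u t) * hcs
  · change y t ^ (n' + 1) = rad k (G t) * Real.sin (ang k α (G t))
    rw [hrad, hYv]
    congr 1
    unfold ang
    rw [Real.sin_add, ← hAt, ← hBt]
    linear_combination (-v t) * hcs

end Pool.Agent.Q120.SPI
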