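import Pool.Agent.Q120.SPI.Basic

/-!
# The upper bound for the area of a neighbourhood of the spiral
-/

set_option autoImplicit false

namespace Pool.Agent.Q120.SPI

open Set MeasureTheory Filter Topology

/-- The radius at the parameter `g`. -/
noncomputable def rad (k : ℕ) (g : ℝ) : ℝ := g ^ (-(1 / (2 * (k : ℝ))))

/-- The angle at the parameter `g`. -/
noncomputable def ang (k : ℕ) (α g : ℝ) : ℝ := g / (2 * (k : ℝ)) + α

/-- The point `p` of the spiral has the parameter `g`. -/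
def OnCurve (m n k : ℕ) (α g : ℝ) (p : ℝ × ℝ) : Prop :=
  p.1 ^ m = rad k g * Real.cos (ang k α g) ∧ p.2 ^ n = rad k g * Real.sin (ang k α g)

/-- The point at the parameter `g`, one coordinate. -/
noncomputable def co (m k : ℕ) (g z : ℝ) : ℝ := g ^ (-(1 / (2 * (m : ℝ) * k))) * rt m z

lemma co_pow {m k : ℕ} (hm : Odd m) {g : ℝ} (hg : 0 < g) (z : ℝ) :
    co m k g z ^ m = rad k g * z := by
  have hm0 : (m : ℝ) ≠ 0 := by
    have : m ≠ 0 := by rintro rfl; simp at hm
    exact_mod_cast this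
  unfold co rad
  rw [mul_pow, rt_pow hm, ← Real.rpow_natCast, ← Real.rpow_mul hg.le]
  congr 2
  by_cases hk : (k : ℝ) = 0
  · simp [hk]
  · field_simp

lemma co_unique {m k : ℕ} (hm : Odd m) {g : ℝ} (hg : 0 < g) {x z : ℝ}
    (h : x ^ m = rad k g * z) : x = co m k g z :=
  hm.strictMono_pow.injective (h.trans (co_pow hm hg z).symm)

lemma co_diff {m k : ℕ} (hm : Odd m) {g g' : ℝ} (hg : 0 < g) (hgg : g ≤ g') {z z' W : ℝ}
    (hz : |z| ≤ 1) (hW : g' ^ (-(1 / (2 * (m : ℝ) * k))) ≤ W) :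
    |co m k g' z' - co m k g z| ≤ W * |rt m z' - rt m z| +
      (g ^ (-(1 / (2 * (m : ℝ) * k))) - g' ^ (-(1 / (2 * (m : ℝ) * k)))) := by
  set a : ℝ := 1 / (2 * (m : ℝ) * k) with ha
  have ha0 : 0 ≤ a := by positivity
  have h1 : g' ^ (-a) ≤ g ^ (-a) := Real.rpow_le_rpow_of_nonpos hg hgg (by linarith)
  have h2 : 0 ≤ g' ^ (-a) := Real.rpow_nonneg (by linarith) _
  have e : co m k g' z' - co m k g z = g' ^ (-a) * (rt m z' - rt m z) +
      rt m z * (g' ^ (-a) - g ^ (-a)) := by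
    unfold co
    ring
  rw [e]
  refine (abs_add_le _ _).trans ?_
  rw [abs_mul, abs_mul, abs_of_nonneg h2]
  apply add_le_add
  · exact mul_le_mul_of_nonneg_right hW (abs_nonneg _)
  · have h3 : |g' ^ (-a) - g ^ (-a)| = g ^ (-a) - g' ^ (-a) := by
      rw [abs_of_nonpos (by linarith)]; ring
    rw [h3]
    have := rt_abs_le hm hz
    have h4 : 0 ≤ g ^ (-a) - g' ^ (-a) := by linarith
    calc |rt m z| * (g ^ (-a) - g' ^ (-a)) ≤ 1 * (g ^ (-a) - g' ^ (-a)) :=
          mul_le_mul_of_nonneg_right this h4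
      _ = _ := one_mul _

/-- The part of the spiral in one quarter turn. -/
lemma quarter_volume {m n k : ℕ} (hm : Odd m) (hn : Odd n) (hk : 1 ≤ k) {α g₀ W δ : ℝ}
    (hg₀ : 0 < g₀) (hδ : 0 < δ) (hW : 0 ≤ W) (i : ℕ)
    (hW1 : ∀ g, g₀ ≤ g → i * (Real.pi / 2) ≤ ang k α g → g ^ (-(1 / (2 * (m : ℝ) * k))) ≤ W)
    (hW2 : ∀ g, g₀ ≤ g → i * (Real.pi / 2) ≤ ang k α g → g ^ (-(1 / (2 * (n : ℝ) * k))) ≤ W) :
    volume {p : ℝ × ℝ | ∃ g ∈ {g : ℝ | g₀ ≤ g ∧ i * (Real.pi / 2) ≤ ang k α g ∧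
      ang k α g ≤ (i + 1) * (Real.pi / 2)},
      |p.1 - co m k g (Real.cos (ang k α g))| ≤ δ ∧
      |p.2 - co n k g (Real.sin (ang k α g))| ≤ δ} ≤
      ENNReal.ofReal ((6 * W / δ + 1) * (4 * δ) ^ 2) := by
  obtain ⟨s₁, s₂, h1, h2, h3, h4⟩ := quarter i
  set a : ℝ := 1 / (2 * (m : ℝ) * k) with ha
  set b : ℝ := 1 / (2 * (n : ℝ) * k) with hb
  have ha0 : 0 ≤ a := by positivity
  have hb0 : 0 ≤ b := by positivity
  have hk0 : (0 : ℝ) < 2 * (k : ℝ) := by
    have : (1 : ℝ) ≤ k := by exact_mod_cast hk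
    linarith
  set c : ℝ → ℝ := fun g => rt m (Real.cos (ang k α g)) with hc
  set s : ℝ → ℝ := fun g => rt n (Real.sin (ang k α g)) with hs
  have hc1 : ∀ g, |c g| ≤ 1 := fun g => rt_abs_le hm (Real.abs_cos_le_one _)
  have hs1 : ∀ g, |s g| ≤ 1 := fun g => rt_abs_le hn (Real.abs_sin_le_one _)
  have hsign : ∀ {q : ℕ}, Odd q → ∀ {t : ℝ}, (t = 1 ∨ t = -1) → ∀ z, t * rt q z = rt q (t * z) := by
    intro q hq t ht z
    rcases ht with rfl | rfl
    · rw [one_mul, one_mul]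
    · rw [neg_one_mul, neg_one_mul, rt_neg hq]
  have habs : ∀ {t : ℝ}, (t = 1 ∨ t = -1) → ∀ z, |t * z| = |z| := by
    intro t ht z
    rcases ht with rfl | rfl
    · rw [one_mul]
    · rw [neg_one_mul, abs_neg]
  set I : Set ℝ := {g : ℝ | g₀ ≤ g ∧ i * (Real.pi / 2) ≤ ang k α g ∧
      ang k α g ≤ (i + 1) * (Real.pi / 2)} with hI
  set f : ℝ → ℝ := fun g => W * (2 + s₁ * c g + s₂ * s g) + (2 * W - g ^ (-a) - g ^ (-b)) with hf
  have key : ∀ g ∈ I, ∀ g' ∈ I, g ≤ g' →
      f g' - f g = W * |c g' - c g| + W * |s g' - s g| + (g ^ (-a) - g' ^ (-a)) +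
        (g ^ (-b) - g' ^ (-b)) := by
    intro g hg g' hg' hgg
    have hang : ang k α g ≤ ang k α g' := by
      unfold ang
      have := div_le_div_of_nonneg_right hgg hk0.le
      linarith
    have e1 : |c g' - c g| = s₁ * c g' - s₁ * c g := by
      rw [← mul_sub, ← habs h1 (c g' - c g), abs_of_nonneg]
      rw [mul_sub, sub_nonneg, hc]
      simp only
      rw [hsign hm h1, hsign hm h1]
      exact rt_mono hm (h3 ⟨hg.2.1, hg.2.2⟩ ⟨hg'.2.1, hg'.2.2⟩ hang)
    have e2 : |s g' - s g| = s₂ * s g' - s₂ * s g := by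
      rw [← mul_sub, ← habs h2 (s g' - s g), abs_of_nonneg]
      rw [mul_sub, sub_nonneg, hs]
      simp only
      rw [hsign hn h2, hsign hn h2]
      exact rt_mono hn (h4 ⟨hg.2.1, hg.2.2⟩ ⟨hg'.2.1, hg'.2.2⟩ hang)
    rw [e1, e2, hf]
    ring
  have dec : ∀ g ∈ I, ∀ g' ∈ I, g ≤ g' → g' ^ (-a) ≤ g ^ (-a) ∧ g' ^ (-b) ≤ g ^ (-b) := by
    intro g hg g' hg' hgg
    have hgp : 0 < g := lt_of_lt_of_le hg₀ hg.1
    exact ⟨Real.rpow_le_rpow_of_nonpos hgp hgg (by linarith),
      Real.rpow_le_rpow_of_nonpos hgp hgg (by linarith)⟩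
  refine cover hδ (by positivity) (f := f) ?_ ?_ ?_
  · intro g hg
    have hgp : 0 < g := lt_of_lt_of_le hg₀ hg.1
    have e1 := hW1 g hg.1 hg.2.1
    have e2 := hW2 g hg.1 hg.2.1
    have e3 : 0 ≤ g ^ (-a) := Real.rpow_nonneg hgp.le _
    have e4 : 0 ≤ g ^ (-b) := Real.rpow_nonneg hgp.le _
    have e5 := abs_le.1 ((habs h1 (c g)).le.trans (hc1 g))
    have e6 := abs_le.1 ((habs h2 (s g)).le.trans (hs1 g))
    rw [hf]
    simp only
    constructor
    · have : 0 ≤ W * (2 + s₁ * c g + s₂ * s g) := mul_nonneg hW (by linarith [e5.1, e6.1])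
      linarith
    · have : W * (2 + s₁ * c g + s₂ * s g) ≤ W * 4 :=
        mul_le_mul_of_nonneg_left (by linarith [e5.2, e6.2]) hW
      linarith
  · have half : ∀ g ∈ I, ∀ g' ∈ I, g ≤ g' →
        |co m k g' (Real.cos (ang k α g')) - co m k g (Real.cos (ang k α g))| ≤
          |f g' - f g| := by
      intro g hg g' hg' hgg
      have hgp : 0 < g := lt_of_lt_of_le hg₀ hg.1
      have e1 := co_diff (k := k) hm hgp hgg (z := Real.cos (ang k α g))
        (z' := Real.cos (ang k α g')) (Real.abs_cos_le_one _) (hW1 g' hg'.1 hg'.2.1)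
      have e2 := key g hg g' hg' hgg
      have e3 := dec g hg g' hg' hgg
      have e4 : 0 ≤ W * |s g' - s g| := mul_nonneg hW (abs_nonneg _)
      refine e1.trans (le_trans ?_ (le_abs_self _))
      rw [e2]
      linarith [e3.2]
    intro g hg g' hg'
    rcases le_total g g' with h | h
    · rw [abs_sub_comm, abs_sub_comm (f g)]
      exact half g hg g' hg' h
    · exact half g' hg' g hg h
  · have half : ∀ g ∈ I, ∀ g' ∈ I, g ≤ g' →
        |co n k g' (Real.sin (ang k α g')) - co n k g (Real.sin (ang k α g))| ≤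
          |f g' - f g| := by
      intro g hg g' hg' hgg
      have hgp : 0 < g := lt_of_lt_of_le hg₀ hg.1
      have e1 := co_diff (k := k) hn hgp hgg (z := Real.sin (ang k α g))
        (z' := Real.sin (ang k α g')) (Real.abs_sin_le_one _) (hW2 g' hg'.1 hg'.2.1)
      have e2 := key g hg g' hg' hgg
      have e3 := dec g hg g' hg' hgg
      have e4 : 0 ≤ W * |c g' - c g| := mul_nonneg hW (abs_nonneg _)
      refine e1.trans (le_trans ?_ (le_abs_self _))
      rw [e2]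
      linarith [e3.1]
    intro g hg g' hg'
    rcases le_total g g' with h | h
    · rw [abs_sub_comm, abs_sub_comm (f g)]
      exact half g hg g' hg' h
    · exact half g' hg' g hg h

theorem upper {m n k : ℕ} (hm : Odd m) (hn : Odd n) (hmn : n ≤ m) (hk : 1 ≤ k) {α g₀ : ℝ}
    (hα0 : 0 ≤ α) (hα1 : α ≤ 2 * Real.pi) (hg₀ : 0 < g₀) {S : Set (ℝ × ℝ)}
    (hS : ∀ p ∈ S, ∃ g, g₀ ≤ g ∧ OnCurve m n k α g p) :
    ∃ C : ℝ, 0 < C ∧ ∀ η : ℝ, 0 < η → η ≤ 1 →
      volume (nhd S (η ^ (2 * n * k + 1))) ≤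
        ENNReal.ofReal (C * (η * η ^ ((n : ℝ) / m))) := by
  have hm1 : 1 ≤ m := hm.pos
  have hn1 : 1 ≤ n := hn.pos
  have hm1' : (1 : ℝ) ≤ m := by exact_mod_cast hm1
  have hn1' : (1 : ℝ) ≤ n := by exact_mod_cast hn1
  have hk1' : (1 : ℝ) ≤ k := by exact_mod_cast hk
  have hmn' : (n : ℝ) ≤ m := by exact_mod_cast hmn
  set a : ℝ := 1 / (2 * (m : ℝ) * k) with ha
  set b : ℝ := 1 / (2 * (n : ℝ) * k) with hb
  have ha0 : 0 < a := by positivity
  have hb0 : 0 < b := by positivity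
  have hab : a ≤ b := by
    rw [ha, hb]
    apply one_div_le_one_div_of_le (by positivity)
    have : (n : ℝ) * k ≤ m * k := mul_le_mul_of_nonneg_right hmn' (by linarith)
    linarith
  have ha1 : a < 1 := by
    rw [ha, div_lt_one (by positivity)]
    have : (1 : ℝ) ≤ m * k := by nlinarith
    linarith
  set c₀ : ℝ := min (g₀ / 10) 1 with hc₀
  have hc₀p : 0 < c₀ := lt_min (by positivity) one_pos
  have hc₀1 : c₀ ≤ 1 := min_le_right _ _
  have hlow : ∀ (i : ℕ) (g : ℝ), g₀ ≤ g → i * (Real.pi / 2) ≤ ang k α g →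
      c₀ * (i + 1) ≤ g := by
    intro i g hg hi
    by_cases hi8 : i ≤ 8
    · have h1 : (i : ℝ) ≤ 8 := by exact_mod_cast hi8
      have h2 : c₀ ≤ g₀ / 10 := min_le_left _ _
      have h3 : (0 : ℝ) ≤ i := Nat.cast_nonneg i
      nlinarith
    · push Not at hi8
      have h1 : (9 : ℝ) ≤ i := by exact_mod_cast hi8
      unfold ang at hi
      have h2 : (i : ℝ) * (Real.pi / 2) - 2 * Real.pi ≤ g / (2 * k) := by linarith
      rw [le_div_iff₀ (by positivity)] at h2
      have h3 : ((i : ℝ) * (Real.pi / 2) - 2 * Real.pi) * (2 * k) =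
          Real.pi * k * (i - 4) := by ring
      rw [h3] at h2
      have h4 : 3 * ((i : ℝ) - 4) ≤ Real.pi * k * (i - 4) := by
        apply mul_le_mul_of_nonneg_right _ (by linarith)
        have := Real.pi_gt_three
        nlinarith
      have h5 : c₀ * ((i : ℝ) + 1) ≤ 1 * ((i : ℝ) + 1) :=
        mul_le_mul_of_nonneg_right hc₀1 (by linarith)
      linarith
  set K : ℝ := c₀ ^ (-b) with hK
  have hKp : 0 < K := Real.rpow_pos_of_pos hc₀p _
  have hKa : c₀ ^ (-a) ≤ K := Real.rpow_le_rpow_of_exponent_ge hc₀p hc₀1 (by linarith)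
  set W : ℕ → ℝ := fun i => K * ((i : ℝ) + 1) ^ (-a) with hW
  have hW0 : ∀ i, 0 ≤ W i := fun i => by
    have : (0 : ℝ) ≤ ((i : ℝ) + 1) ^ (-a) := Real.rpow_nonneg (by positivity) _
    exact mul_nonneg hKp.le this
  have hW1 : ∀ (i : ℕ) (g : ℝ), g₀ ≤ g → i * (Real.pi / 2) ≤ ang k α g →
      g ^ (-a) ≤ W i := by
    intro i g hg hi
    have h1 := hlow i g hg hi
    have h2 : (0 : ℝ) < (i : ℝ) + 1 := by positivity
    calc g ^ (-a) ≤ (c₀ * (i + 1)) ^ (-a) :=
          Real.rpow_le_rpow_of_nonpos (by positivity) h1 (by linarith)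
      _ = c₀ ^ (-a) * ((i : ℝ) + 1) ^ (-a) := Real.mul_rpow hc₀p.le h2.le
      _ ≤ K * ((i : ℝ) + 1) ^ (-a) :=
          mul_le_mul_of_nonneg_right hKa (Real.rpow_nonneg h2.le _)
  have hW2 : ∀ (i : ℕ) (g : ℝ), g₀ ≤ g → i * (Real.pi / 2) ≤ ang k α g →
      g ^ (-b) ≤ W i := by
    intro i g hg hi
    have h1 := hlow i g hg hi
    have h2 : (0 : ℝ) < (i : ℝ) + 1 := by positivity
    calc g ^ (-b) ≤ (c₀ * (i + 1)) ^ (-b) :=
          Real.rpow_le_rpow_of_nonpos (by positivity) h1 (by linarith)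
      _ = c₀ ^ (-b) * ((i : ℝ) + 1) ^ (-b) := Real.mul_rpow hc₀p.le h2.le
      _ ≤ K * ((i : ℝ) + 1) ^ (-a) := by
          apply mul_le_mul_of_nonneg_left _ hKp.le
          apply Real.rpow_le_rpow_of_exponent_le
          · have : (0 : ℝ) ≤ i := Nat.cast_nonneg i
            linarith
          · linarith
  refine ⟨96 * K / (1 - a) * (2 / c₀) * 2 + 16 * (2 / c₀) * 4 + 36, ?_, ?_⟩
  · have : 0 < 1 - a := by linarith
    positivity
  intro η hη0 hη1
  set E : ℝ := η ^ ((n : ℝ) / m) with hE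
  have hE0 : 0 < E := Real.rpow_pos_of_pos hη0 _
  have hηE : η ≤ E := by
    have h1 : η ^ (1 : ℝ) ≤ E := by
      apply Real.rpow_le_rpow_of_exponent_ge hη0 hη1
      rw [div_le_one (by linarith)]
      exact hmn'
    rwa [Real.rpow_one] at h1
  set ε : ℝ := η ^ (2 * n * k + 1) with hε
  have hε0 : 0 < ε := by positivity
  set δ : ℝ := 2 * ε with hδ
  have hδ0 : 0 < δ := by positivity
  set T : ℝ := (η ^ (2 * n * k))⁻¹ with hT
  have hT1 : 1 ≤ T := by
    rw [hT, one_le_inv₀ (by positivity)]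
    exact pow_le_one₀ hη0.le hη1
  have hT0 : 0 < T := by linarith
  have hδT : δ * T = 2 * η := by
    rw [hδ, hε, hT, pow_succ]
    field_simp
  have hδη : δ ≤ 2 * η := by
    rw [← hδT]
    nlinarith
  have hTa : T ^ (-a) = E := by
    rw [hT, hE, Real.inv_rpow (by positivity), Real.rpow_neg (by positivity), inv_inv,
      ← Real.rpow_natCast, ← Real.rpow_mul hη0.le]
    congr 1
    rw [ha]
    push_cast
    field_simp
  have hTb : T ^ (-b) = η := by
    rw [hT, Real.inv_rpow (by positivity), Real.rpow_neg (by positivity), inv_inv,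
      ← Real.rpow_natCast, ← Real.rpow_mul hη0.le]
    have : ((2 * n * k : ℕ) : ℝ) * b = 1 := by
      rw [hb]
      push_cast
      field_simp
    rw [this, Real.rpow_one]
  set J : ℕ := ⌈T / c₀⌉₊ with hJ
  have hTc : 1 ≤ T / c₀ := by
    rw [le_div_iff₀ hc₀p]
    linarith
  have hJle : (J : ℝ) ≤ 2 / c₀ * T := by
    have := Nat.ceil_lt_add_one (show 0 ≤ T / c₀ by positivity)
    have e : 2 / c₀ * T = T / c₀ + T / c₀ := by ring
    rw [e]
    linarith
  set B : ℕ → Set (ℝ × ℝ) := fun i => {p : ℝ × ℝ | ∃ g ∈ {g : ℝ | g₀ ≤ g ∧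
      i * (Real.pi / 2) ≤ ang k α g ∧ ang k α g ≤ (i + 1) * (Real.pi / 2)},
      |p.1 - co m k g (Real.cos (ang k α g))| ≤ δ ∧
      |p.2 - co n k g (Real.sin (ang k α g))| ≤ δ} with hB
  have hsub : nhd S ε ⊆ (⋃ i ∈ Finset.range J, B i) ∪
      (Icc (-(E + δ)) (E + δ) ×ˢ Icc (-(η + δ)) (η + δ)) := by
    intro p hp
    obtain ⟨q, hqS, hq⟩ := hp δ (by linarith)
    have hq1 : |p.1 - q.1| ≤ δ := by
      have h1 : |p.1 - q.1| ≤ Real.sqrt ((p.1 - q.1) ^ 2 + (p.2 - q.2) ^ 2) := by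
        rw [← Real.sqrt_sq_eq_abs]
        apply Real.sqrt_le_sqrt
        nlinarith [sq_nonneg (p.2 - q.2)]
      linarith
    have hq2 : |p.2 - q.2| ≤ δ := by
      have h1 : |p.2 - q.2| ≤ Real.sqrt ((p.1 - q.1) ^ 2 + (p.2 - q.2) ^ 2) := by
        rw [← Real.sqrt_sq_eq_abs]
        apply Real.sqrt_le_sqrt
        nlinarith [sq_nonneg (p.1 - q.1)]
      linarith
    obtain ⟨g, hg, hc1, hc2⟩ := hS q hqS
    have hgp : 0 < g := lt_of_lt_of_le hg₀ hg
    have hx := co_unique hm hgp hc1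
    have hy := co_unique hn hgp hc2
    by_cases hgT : g ≤ T
    · left
      have hψ0 : 0 ≤ ang k α g := by
        unfold ang
        have : 0 ≤ g / (2 * (k : ℝ)) := by positivity
        linarith
      have hπ : 0 < Real.pi / 2 := by
        have := Real.pi_pos
        linarith
      set i : ℕ := ⌊ang k α g / (Real.pi / 2)⌋₊ with hi
      have hi1 : (i : ℝ) * (Real.pi / 2) ≤ ang k α g := by
        have := Nat.floor_le (div_nonneg hψ0 hπ.le)
        rwa [← hi, le_div_iff₀ hπ] at this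
      have hi2 : ang k α g ≤ ((i : ℝ) + 1) * (Real.pi / 2) := by
        have := Nat.lt_floor_add_one (ang k α g / (Real.pi / 2))
        rw [← hi, div_lt_iff₀ hπ] at this
        exact this.le
      rw [mem_iUnion₂]
      refine ⟨i, ?_, g, ⟨hg, hi1, hi2⟩, ?_, ?_⟩
      · rw [Finset.mem_range]
        have h1 := hlow i g hg hi1
        have h2 : ((i : ℝ) + 1) ≤ T / c₀ := by
          rw [le_div_iff₀ hc₀p, mul_comm]
          linarith
        have h3 := Nat.le_ceil (T / c₀)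
        have h4 : ((i + 1 : ℕ) : ℝ) ≤ (J : ℝ) := by
          push_cast
          linarith
        have h5 : i + 1 ≤ J := by exact_mod_cast h4
        omega
      · rw [← hx]; exact hq1
      · rw [← hy]; exact hq2
    · right
      push Not at hgT
      have h1 : |q.1| ≤ E := by
        rw [hx]
        unfold co
        rw [abs_mul, abs_of_nonneg (Real.rpow_nonneg hgp.le _)]
        have h2 : g ^ (-a) ≤ T ^ (-a) := Real.rpow_le_rpow_of_nonpos hT0 hgT.le (by linarith)
        rw [hTa] at h2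
        have h3 := rt_abs_le hm (Real.abs_cos_le_one (ang k α g))
        calc g ^ (-a) * |rt m (Real.cos (ang k α g))| ≤ E * 1 :=
              mul_le_mul h2 h3 (abs_nonneg _) hE0.le
          _ = E := mul_one _
      have h2 : |q.2| ≤ η := by
        rw [hy]
        unfold co
        rw [abs_mul, abs_of_nonneg (Real.rpow_nonneg hgp.le _)]
        have h2 : g ^ (-b) ≤ T ^ (-b) := Real.rpow_le_rpow_of_nonpos hT0 hgT.le (by linarith)
        rw [hTb] at h2
        have h3 := rt_abs_le hn (Real.abs_sin_le_one (ang k α g))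
        calc g ^ (-b) * |rt n (Real.sin (ang k α g))| ≤ η * 1 :=
              mul_le_mul h2 h3 (abs_nonneg _) hη0.le
          _ = η := mul_one _
      rw [abs_le] at h1 h2 hq1 hq2
      refine ⟨⟨?_, ?_⟩, ⟨?_, ?_⟩⟩ <;> linarith [h1.1, h1.2, h2.1, h2.2, hq1.1, hq1.2, hq2.1,
        hq2.2]
  refine (measure_mono hsub).trans ((measure_union_le _ _).trans ?_)
  have hsum : volume (⋃ i ∈ Finset.range J, B i) ≤
      ENNReal.ofReal (96 * δ * K * ((J : ℝ) ^ (1 - a) / (1 - a)) + 16 * δ ^ 2 * J) := by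
    refine (measure_biUnion_finset_le _ _).trans ?_
    refine (Finset.sum_le_sum (fun i _ => quarter_volume hm hn hk hg₀ hδ0 (hW0 i) i
      (hW1 i) (hW2 i))).trans ?_
    rw [← ENNReal.ofReal_sum_of_nonneg (fun i _ => by
      have := hW0 i
      positivity)]
    apply ENNReal.ofReal_le_ofReal
    have e : ∀ i ∈ Finset.range J, (6 * W i / δ + 1) * (4 * δ) ^ 2 =
        96 * δ * K * ((i : ℝ) + 1) ^ (-a) + 16 * δ ^ 2 := by
      intro i _
      rw [hW]
      simp only
      field_simp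
      ring
    rw [Finset.sum_congr rfl e, Finset.sum_add_distrib, ← Finset.mul_sum, Finset.sum_const,
      Finset.card_range, nsmul_eq_mul]
    have h1 := sum_rpow_le ha0 ha1 J
    have h2 := mul_le_mul_of_nonneg_left h1 (show 0 ≤ 96 * δ * K by positivity)
    linarith
  refine (add_le_add hsum (volume_rect _ _ _ _).le).trans ?_
  rw [← ENNReal.ofReal_mul (by linarith), ← ENNReal.ofReal_add]
  · apply ENNReal.ofReal_le_ofReal
    have h1a : 0 < 1 - a := by linarith
    have h1 : (J : ℝ) ^ (1 - a) ≤ 2 / c₀ * (T * E) := by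
      have e1 : (J : ℝ) ^ (1 - a) ≤ (2 / c₀ * T) ^ (1 - a) :=
        Real.rpow_le_rpow (Nat.cast_nonneg J) hJle h1a.le
      have e2 : (2 / c₀ * T) ^ (1 - a) = (2 / c₀) ^ (1 - a) * T ^ (1 - a) :=
        Real.mul_rpow (by positivity) hT0.le
      have e3 : (2 / c₀) ^ (1 - a) ≤ (2 / c₀) ^ (1 : ℝ) := by
        apply Real.rpow_le_rpow_of_exponent_le
        · rw [le_div_iff₀ hc₀p]
          linarith
        · linarith
      rw [Real.rpow_one] at e3
      have e4 : T ^ (1 - a) = T * E := by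
        rw [← hTa, sub_eq_add_neg, Real.rpow_add hT0, Real.rpow_one]
      rw [e2, e4] at e1
      refine e1.trans (mul_le_mul_of_nonneg_right e3 (by positivity))
    have h2 : 96 * δ * K * ((J : ℝ) ^ (1 - a) / (1 - a)) ≤
        96 * K / (1 - a) * (2 / c₀) * 2 * (η * E) := by
      have e1 : 96 * δ * K * ((J : ℝ) ^ (1 - a) / (1 - a)) =
          96 * δ * K / (1 - a) * (J : ℝ) ^ (1 - a) := by ring
      rw [e1]
      have e2 := mul_le_mul_of_nonneg_left h1 (show 0 ≤ 96 * δ * K / (1 - a) by positivity)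
      refine e2.trans (le_of_eq ?_)
      have e3 : 96 * δ * K / (1 - a) * (2 / c₀ * (T * E)) =
          96 * K / (1 - a) * (2 / c₀) * (δ * T) * E := by ring
      rw [e3, hδT]
      ring
    have h3 : 16 * δ ^ 2 * J ≤ 16 * (2 / c₀) * 4 * (η * E) := by
      have e1 : 16 * δ ^ 2 * J ≤ 16 * δ ^ 2 * (2 / c₀ * T) :=
        mul_le_mul_of_nonneg_left hJle (by positivity)
      have e2 : 16 * δ ^ 2 * (2 / c₀ * T) = 16 * (2 / c₀) * (δ * (δ * T)) := by ring
      rw [e2, hδT] at e1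
      refine e1.trans ?_
      have e3 : δ * (2 * η) ≤ 4 * (η * E) := by
        have : δ ≤ 2 * E := by linarith
        nlinarith
      have e4 := mul_le_mul_of_nonneg_left e3 (show 0 ≤ 16 * (2 / c₀) by positivity)
      linarith
    have h4 : (E + δ - -(E + δ)) * (η + δ - -(η + δ)) ≤ 36 * (η * E) := by
      have e1 : E + δ ≤ 3 * E := by linarith
      have e2 : η + δ ≤ 3 * η := by linarith
      have e3 : (E + δ) * (η + δ) ≤ 3 * E * (3 * η) :=
        mul_le_mul e1 e2 (by positivity) (by positivity)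
      nlinarith
    calc _ ≤ 96 * K / (1 - a) * (2 / c₀) * 2 * (η * E) + 16 * (2 / c₀) * 4 * (η * E) +
          36 * (η * E) := by linarith
      _ = _ := by ring
  · have h1a : 0 < 1 - a := by linarith
    have : 0 ≤ (J : ℝ) ^ (1 - a) := Real.rpow_nonneg (Nat.cast_nonneg J) _
    positivity
  · apply mul_nonneg <;> linarith

end Pool.Agent.Q120.SPI
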